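import Mathlib

set_option autoImplicit false

namespace Pool.Agent.Results.MP_254ca6_gt.Inclusions

open Set Filter Topology

/-- every sequence in `X` has a `u`-limit -/
def UCompact (u : Ultrafilter ℕ) (X : Type) [TopologicalSpace X] : Prop :=
  ∀ f : ℕ → X, ∃ x, Tendsto f u (𝓝 x)

/-- every injective sequence in `X` with discrete range has a `u`-limit -/
def DCompact (u : Ultrafilter ℕ) (X : Type) [TopologicalSpace X] : Prop :=
  ∀ f : ℕ → X, Function.Injective f → DiscreteTopology (range f) → ∃ x, Tendsto f u (𝓝 x)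

/-- the Comfort preorder -/
def LeC (u v : Ultrafilter ℕ) : Prop :=
  ∀ (X : Type) [TopologicalSpace X] [T35Space X], UCompact v X → UCompact u X

/-- the Comfort-Frolik preorder -/
def LeCF (u v : Ultrafilter ℕ) : Prop :=
  ∀ (X : Type) [TopologicalSpace X] [T35Space X], DCompact v X → DCompact u X

/-- the Rudin-Frolik preorder -/
def LeRF (u v : Ultrafilter ℕ) : Prop :=
  ∃ f : ℕ → Ultrafilter ℕ, Function.Injective f ∧ DiscreteTopology (range f) ∧
    Tendsto f u (𝓝 v)

lemma discrete_of {X : Type} [TopologicalSpace X] {f : ℕ → X} (U : ℕ → Set X)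
    (h1 : ∀ n, IsOpen (U n)) (h2 : ∀ n m, f m ∈ U n ↔ m = n) : DiscreteTopology (range f) := by
  rw [discreteTopology_iff_isOpen_singleton]
  rintro ⟨_, n, rfl⟩
  refine ⟨U n, h1 n, Set.ext ?_⟩
  rintro ⟨_, m, rfl⟩
  refine ⟨fun h => ?_, fun h => ?_⟩
  · obtain rfl := (h2 n m).1 h
    rfl
  · have : f m = f n := congrArg Subtype.val h
    show f m ∈ U n
    rw [this, h2]

lemma cf_c (u v : Ultrafilter ℕ) (h : LeCF u v) : LeC u v := by
  intro X _ _ hX f
  have e : IsEmbedding (Prod.map (stoneCechUnit : X → StoneCech X) (id : OnePoint ℕ → OnePoint ℕ)) :=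
    isEmbedding_stoneCechUnit.prodMap IsEmbedding.id
  have : T35Space (X × OnePoint ℕ) := e.t35Space
  obtain ⟨x, hx⟩ := h (X × OnePoint ℕ) (fun g _ _ => by
      obtain ⟨a, ha⟩ := hX fun n => (g n).1
      obtain ⟨b, -, hb⟩ := isCompact_univ.ultrafilter_le_nhds (v.map fun n => (g n).2) (by simp)
      exact ⟨(a, b), ha.prodMk_nhds hb⟩) (fun n => (f n, (n : OnePoint ℕ)))
    (fun a b hab => OnePoint.coe_injective (Prod.mk.inj hab).2)
    (discrete_of (fun n => Prod.snd ⁻¹' {(n : OnePoint ℕ)})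
      (fun n => IsOpen.preimage continuous_snd (by
        rw [← image_singleton]
        exact OnePoint.isOpenEmbedding_coe.isOpenMap _ (isOpen_discrete _)))
      fun n m => by simp)
  exact ⟨x.1, (continuous_fst.tendsto x).comp hx⟩

lemma cf_rf (u v : Ultrafilter ℕ) (h : LeCF u v) : (∃ n, u = pure n) ∨ LeRF v u := by
  obtain ⟨x, hx⟩ := h {w : Ultrafilter ℕ // (∃ n, w = pure n) ∨ LeRF v w} (fun g h1 h2 => by
      obtain ⟨b, -, hb⟩ := isCompact_univ.ultrafilter_le_nhds (v.map fun n => (g n).1) (by simp)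
      refine ⟨⟨b, Or.inr ⟨fun n => (g n).1, Subtype.val_injective.comp h1, ?_, hb⟩⟩,
        tendsto_subtype_rng.2 hb⟩
      have : range (fun n => (g n).1) = Subtype.val '' range g := by
        rw [← range_comp]; rfl
      rw [this]
      exact (IsEmbedding.subtypeVal.homeomorphImage (range g)).symm.isEmbedding.discreteTopology)
    (fun n => ⟨pure n, Or.inl ⟨n, rfl⟩⟩)
    (fun a b hab => Ultrafilter.pure_injective (congrArg Subtype.val hab))
    (discrete_of (fun n => Subtype.val ⁻¹' {w : Ultrafilter ℕ | {n} ∈ w})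
      (fun n => (ultrafilter_isOpen_basic _).preimage continuous_subtype_val) fun n m => by simp)
  have : u = x.1 := tendsto_nhds_unique u.tendsto_pure_self (tendsto_subtype_rng.1 hx)
  rw [this]
  exact x.2

lemma mem_of_tendsto {f : ℕ → Ultrafilter ℕ} {u v : Ultrafilter ℕ} (h : Tendsto f u (𝓝 v))
    {s : Set ℕ} (hs : s ∈ v) : {n | s ∈ f n} ∈ u :=
  h ((ultrafilter_isOpen_basic s).mem_nhds hs)

lemma rf_rk {u v : Ultrafilter ℕ} (h : LeRF u v) : ∃ k : ℕ → ℕ, v.map k = u := by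
  classical
  obtain ⟨f, h1, h2, h3⟩ := h
  have : ∀ n, ∃ B : Set ℕ, ∀ m, B ∈ f m ↔ m = n := by
    intro n
    obtain ⟨U, hU, hU'⟩ := isOpen_induced_iff.1
      (isOpen_discrete ({⟨f n, n, rfl⟩} : Set (range f)))
    have hn : f n ∈ U := by
      have : (⟨f n, n, rfl⟩ : range f) ∈ Subtype.val ⁻¹' U := hU' ▸ rfl
      exact this
    obtain ⟨_, ⟨B, rfl⟩, h4, h5⟩ := ultrafilterBasis_is_basis.exists_subset_of_mem_open hn hU
    refine ⟨B, fun m => ⟨fun hm => ?_, fun hm => hm ▸ h4⟩⟩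
    have : (⟨f m, m, rfl⟩ : range f) ∈ Subtype.val ⁻¹' U := h5 hm
    rw [hU'] at this
    exact h1 (congrArg Subtype.val this)
  choose B hB using this
  let k : ℕ → ℕ := fun i => if h : ∃ n, i ∈ B n then Nat.find h else 0
  have hk : ∀ n, k ⁻¹' {n} ∈ f n := by
    intro n
    have : (⋂ m ∈ Iio n, (B m)ᶜ) ∈ f n := (biInter_mem (finite_Iio n)).2 fun m hm =>
      Ultrafilter.compl_mem_iff_notMem.2 fun h => (ne_of_lt hm) ((hB m n).1 h).symm
    refine mem_of_superset (inter_mem ((hB n n).2 rfl) this) ?_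
    rintro i ⟨h4, h5⟩
    have h6 : ∃ n, i ∈ B n := ⟨n, h4⟩
    show k i = n
    simp only [k, dif_pos h6]
    exact (Nat.find_eq_iff h6).2 ⟨h4, fun m hm => mem_iInter₂.1 h5 m hm⟩
  refine ⟨k, Ultrafilter.eq_of_le fun s hs => ?_⟩
  by_contra h4
  have h5 : (k ⁻¹' s)ᶜ ∈ v := Ultrafilter.compl_mem_iff_notMem.2 h4
  obtain ⟨n, h6, h7⟩ := u.nonempty_of_mem (inter_mem hs (mem_of_tendsto h3 h5))
  obtain ⟨i, h8, h9⟩ := (f n).nonempty_of_mem (inter_mem (hk n) h7)
  exact h9 (by rw [mem_preimage, show k i = n from h8]; exact h6)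

lemma colour_lt (f : ℕ → ℕ) : ∃ c : ℕ → Bool, ∀ n, f n < n → c (f n) ≠ c n := by
  let c : ℕ → Bool := fun n => Nat.strongRec (motive := fun _ => Bool)
    (fun n ih => if h : f n < n then !ih (f n) h else true) n
  refine ⟨c, fun n h => ?_⟩
  have : c n = !c (f n) := by
    simp only [c]
    rw [Nat.strongRec_eq]
    simp only [dif_pos h]
  rw [this]
  cases c (f n) <;> simp

lemma colour_gt (g : ℕ → ℕ) (hg : ∀ n, n < g n) : ∃ c : ℕ → ℕ, (∀ n, c n < 2) ∧
    ∀ n, c (g n) ≠ c n := by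
  have hinj : ∀ r, Function.Injective fun b => g^[b] r := fun r =>
    (strictMono_nat_of_lt_succ fun b => by rw [Function.iterate_succ_apply']; exact hg _).injective
  let s : Setoid ℕ := ⟨fun n m => ∃ a b, g^[a] n = g^[b] m, fun n => ⟨0, 0, rfl⟩,
    fun ⟨a, b, h⟩ => ⟨b, a, h.symm⟩, fun ⟨a, b, h⟩ ⟨c, d, h'⟩ => ⟨c + a, b + d, by
      rw [Function.iterate_add_apply, h, ← Function.iterate_add_apply, add_comm,
        Function.iterate_add_apply, h', ← Function.iterate_add_apply]⟩⟩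
  have : ∀ n, ∃ a b, g^[a] n = g^[b] (Quotient.mk s n).out := fun n =>
    s.symm (Quotient.mk_out (s := s) n)
  choose a b hab using this
  refine ⟨fun n => (a n + b n) % 2, fun n => Nat.mod_lt _ (by norm_num), fun n => ?_⟩
  have e : Quotient.mk s (g n) = Quotient.mk s n := Quotient.sound ⟨0, 1, rfl⟩
  have h1 := hab (g n)
  rw [e, ← Function.iterate_succ_apply] at h1
  have h2 : g^[a n + b (g n)] (Quotient.mk s n).out =
      g^[(a (g n) + 1) + b n] (Quotient.mk s n).out := by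
    rw [Function.iterate_add_apply, ← h1, Function.iterate_add_apply g _ (b n), ← hab n,
      ← Function.iterate_add_apply, ← Function.iterate_add_apply, add_comm]
  have : a n + b (g n) = (a (g n) + 1) + b n := hinj _ h2
  show (a (g n) + b (g n)) % 2 ≠ (a n + b n) % 2
  omega

lemma fixed {u : Ultrafilter ℕ} {f : ℕ → ℕ} (h : u.map f = u) : {n | f n = n} ∈ u := by
  have key : ∀ (c : ℕ → ℕ) (D : Set ℕ), (∀ n, c n < 2) → (∀ n ∈ D, c (f n) ≠ c n) → D ∉ u := by
    intro c D h1 h2 hD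
    obtain ⟨b, hb⟩ : ∃ b, {n | c n = b} ∈ u := by
      rcases u.mem_or_compl_mem {n | c n = 0} with h3 | h3
      · exact ⟨0, h3⟩
      · exact ⟨1, mem_of_superset h3 fun n (hn : c n ≠ 0) => by
          have := h1 n
          show c n = 1
          omega⟩
    have h4 : f ⁻¹' {n | c n = b} ∈ u := by
      rw [← Ultrafilter.mem_map, h]; exact hb
    obtain ⟨n, ⟨h5, h6⟩, h7⟩ := u.nonempty_of_mem (inter_mem (inter_mem hb h4) hD)
    exact h2 n h7 (Eq.trans h6 (Eq.symm h5))
  obtain ⟨c, hc⟩ := colour_lt f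
  have h1 := key (fun n => if c n then 1 else 0) {n | f n < n}
    (fun n => by split_ifs <;> norm_num) fun n hn => by
      have := hc n hn
      revert this
      cases c (f n) <;> cases c n <;> simp
  obtain ⟨d, hd1, hd2⟩ := colour_gt (fun n => if n < f n then f n else n + 1) fun n => by
    split_ifs with h
    · exact h
    · exact Nat.lt_succ_self n
  have h2 := key d {n | n < f n} hd1 fun n (hn : n < f n) => by simpa [hn] using hd2 n
  refine mem_of_superset (inter_mem (Ultrafilter.compl_mem_iff_notMem.2 h1)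
    (Ultrafilter.compl_mem_iff_notMem.2 h2)) ?_
  rintro n ⟨h3, h4⟩
  exact le_antisymm (not_lt.1 h4) (not_lt.1 h3)

lemma pair : ∃ u v : Ultrafilter ℕ, LeRF u v ∧ LeC u v ∧ ¬ LeCF u v := by
  let u := hyperfilter ℕ
  let f : ℕ → Ultrafilter ℕ := fun n => u.map (Nat.pair n)
  let v : Ultrafilter ℕ := u.bind f
  have hv : ∀ s : Set ℕ, s ∈ v ↔ {n | {m | Nat.pair n m ∈ s} ∈ u} ∈ u := by
    intro s
    exact Filter.mem_bind'
  have hf : ∀ n m, {i | i.unpair.1 = n} ∈ f m ↔ m = n := by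
    intro n m
    simp only [f, Ultrafilter.mem_map, preimage_ofPred_eq, Nat.unpair_pair]
    by_cases h : m = n
    · exact iff_of_true (mem_of_superset univ_mem fun _ _ => h) h
    · simp [h]
  have h1 : v.map (fun i => i.unpair.1) = u := by
    refine Ultrafilter.eq_of_le fun s hs => ?_
    refine (hv _).2 (mem_of_superset hs fun n hn => mem_of_superset univ_mem fun m _ => ?_)
    simpa using hn
  have h2 : v.map (fun i => i.unpair.2) = u := by
    refine Ultrafilter.eq_of_le fun s hs => ?_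
    refine (hv _).2 (mem_of_superset univ_mem fun n _ => mem_of_superset hs fun m hm => ?_)
    simpa using hm
  refine ⟨u, v, ⟨f, fun a b hab => (hf b a).1 (hab ▸ (hf b b).2 rfl),
    discrete_of (fun n => {w | {i : ℕ | i.unpair.1 = n} ∈ w}) (fun n => ultrafilter_isOpen_basic _) hf,
    ?_⟩, ?_, fun h => ?_⟩
  · rw [ultrafilterBasis_is_basis.nhds_hasBasis.tendsto_right_iff]
    rintro _ ⟨⟨s, rfl⟩, hs⟩
    exact (hv s).1 hs
  · intro X _ _ hX g
    obtain ⟨x, hx⟩ := hX fun i => g i.unpair.1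
    refine ⟨x, ?_⟩
    rw [← h1]
    exact hx
  · rcases cf_rf u v h with ⟨n, hn⟩ | h3
    · have : ({n} : Set ℕ) ∈ u := hn ▸ Ultrafilter.mem_pure.2 rfl
      exact (finite_singleton n).notMem_hyperfilter this
    · obtain ⟨k, hk⟩ := rf_rk h3
      have e1 := fixed (u := u) (f := (fun i => i.unpair.1) ∘ k)
        (by rw [← Ultrafilter.map_map, hk, h1])
      have e2 := fixed (u := u) (f := (fun i => i.unpair.2) ∘ k)
        (by rw [← Ultrafilter.map_map, hk, h2])
      have e3 : {i : ℕ | i.unpair.1 = i.unpair.2} ∈ v := by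
        rw [← hk, Ultrafilter.mem_map]
        exact mem_of_superset (inter_mem e1 e2) fun n hn => Eq.trans hn.1 (Eq.symm hn.2)
      obtain ⟨n, hn⟩ := u.nonempty_of_mem ((hv _).1 e3)
      refine (finite_singleton n).notMem_hyperfilter (mem_of_superset hn fun m hm => ?_)
      simpa [eq_comm] using hm

theorem result :
    (∀ u v, LeCF u v → LeC u v) ∧ (∃ u v, LeC u v ∧ ¬ LeCF u v) ∧
    (∃ u v, LeRF u v ∧ ¬ LeCF u v) ∧ (∀ u v, LeCF u v → (∃ n, u = pure n) ∨ LeRF v u) := by
  obtain ⟨u, v, h1, h2, h3⟩ := pair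
  exact ⟨cf_c, ⟨u, v, h2, h3⟩, ⟨u, v, h1, h3⟩, cf_rf⟩

end Pool.Agent.Results.MP_254ca6_gt.Inclusions
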